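import Pool.Agent.helper7.DF.Spec

set_option autoImplicit false

open Finset

namespace Pool.Agent.DFO

private theorem LGA_log (l : ℕ) : 0 ≤ Real.log ((l + 1 : ℕ) : ℝ) - Real.log (l : ℝ) := by
  rcases Nat.eq_zero_or_pos l with rfl | h
  · simp
  · have h1 : (0 : ℝ) < (l : ℝ) := by exact_mod_cast h
    have h2 : (l : ℝ) ≤ ((l + 1 : ℕ) : ℝ) := by push_cast; linarith
    have := Real.log_le_log h1 h2
    linarith

theorem LGA : LGA_stmt := by
  intro f a b B hab hB
  have hB0 : 0 ≤ B := by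
    have h := hB a le_rfl hab
    rw [Ioc_self, sum_empty, norm_zero] at h
    exact h
  have key : ∀ c : ℕ, a ≤ c → c ≤ b →
      ‖∑ l ∈ Ioc a c, (Real.log l : ℂ) * f l - (Real.log c : ℂ) * ∑ l ∈ Ioc a c, f l‖ ≤
        B * (Real.log c - Real.log a) := by
    intro c hac
    induction c, hac using Nat.le_induction with
    | base =>
      intro _
      rw [Ioc_self, sum_empty, sum_empty]
      simp
    | succ c hac ih =>
      intro hcb
      have h1 := ih (by omega)
      have h2 := hB c hac (by omega)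
      have hins : Ioc a (c + 1) = insert (c + 1) (Ioc a c) := by
        ext x
        simp only [mem_insert, mem_Ioc]
        omega
      have hnot : c + 1 ∉ Ioc a c := by
        simp
      rw [hins, sum_insert hnot, sum_insert hnot]
      have e : (Real.log ((c + 1 : ℕ) : ℝ) : ℂ) * f (c + 1) + ∑ l ∈ Ioc a c, (Real.log l : ℂ) * f l -
          (Real.log ((c + 1 : ℕ) : ℝ) : ℂ) * (f (c + 1) + ∑ l ∈ Ioc a c, f l) =
          (∑ l ∈ Ioc a c, (Real.log l : ℂ) * f l - (Real.log c : ℂ) * ∑ l ∈ Ioc a c, f l) -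
          ((Real.log ((c + 1 : ℕ) : ℝ) - Real.log c : ℝ) : ℂ) * ∑ l ∈ Ioc a c, f l := by
        push_cast
        ring
      rw [e]
      refine (norm_sub_le _ _).trans ?_
      rw [norm_mul, Complex.norm_real, Real.norm_of_nonneg (LGA_log c)]
      have h3 : (Real.log ((c + 1 : ℕ) : ℝ) - Real.log c) * ‖∑ l ∈ Ioc a c, f l‖ ≤
          (Real.log ((c + 1 : ℕ) : ℝ) - Real.log c) * B :=
        mul_le_mul_of_nonneg_left h2 (LGA_log c)
      linarith
  have h1 := key b hab le_rfl
  have h2 := hB b hab le_rfl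
  have hlb : 0 ≤ Real.log (b : ℝ) := Real.log_natCast_nonneg b
  have hla : 0 ≤ Real.log (a : ℝ) := Real.log_natCast_nonneg a
  have e : ∑ l ∈ Ioc a b, (Real.log l : ℂ) * f l =
      (∑ l ∈ Ioc a b, (Real.log l : ℂ) * f l - (Real.log b : ℂ) * ∑ l ∈ Ioc a b, f l) +
      (Real.log b : ℂ) * ∑ l ∈ Ioc a b, f l := by ring
  rw [e]
  refine (norm_add_le _ _).trans ?_
  rw [norm_mul, Complex.norm_real, Real.norm_of_nonneg hlb]
  have h3 : Real.log b * ‖∑ l ∈ Ioc a b, f l‖ ≤ Real.log b * B := mul_le_mul_of_nonneg_left h2 hlb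
  have h4 : 0 ≤ B * Real.log a := mul_nonneg hB0 hla
  linarith

end Pool.Agent.DFO
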